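import Pool.Agent.Work.MP_f058f1_pr.Main
import Pool.Agent.Work.MP_f058f1_pr.Clock
import Pool.Agent.Work.MP_f058f1_pr.Contr
import Pool.Agent.Work.MP_f058f1_pr.EdgeLaw
import Pool.Agent.Work.MP_f058f1_pr.EnvLaw
import Pool.Agent.Work.MP_f058f1_pr.Holo
import Pool.Agent.Work.MP_f058f1_pr.Ind
import Pool.Agent.Work.MP_f058f1_pr.LLN
import Pool.Agent.Work.MP_f058f1_pr.Lat
import Pool.Agent.Work.MP_f058f1_pr.Left
import Pool.Agent.Work.MP_f058f1_pr.Meas
import Pool.Agent.Work.MP_f058f1_pr.One
import Pool.Agent.Work.MP_f058f1_pr.Phi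
import Pool.Agent.Work.MP_f058f1_pr.Rates
import Pool.Agent.Work.MP_f058f1_pr.RealW
import Pool.Agent.Work.MP_f058f1_pr.Refl
import Pool.Agent.Work.MP_f058f1_pr.Schw
import Pool.Agent.Work.MP_f058f1_pr.Step
import Pool.Agent.Work.MP_f058f1_pr.Taylor
import Pool.Agent.Work.MP_f058f1_pr.Var

/-!
# MP_f058f1_pr: on the critical curve the speed is eventually increasing

Biased random walk on dynamical percolation on `Z^(d+1)`, `d + 1 ≥ 2`, with `μ² = p(1-p)`: there is
a function `v` such that for every bias `λ > 0` almost surely `X_t / t → (v(λ), 0, …, 0)`, and `v`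
is strictly increasing on a half line `[λ₀, ∞)`.
-/

open MeasureTheory Filter Topology

namespace Pool.Agent.Results.MP_f058f1_pr.CriticalCurveMonotone

open DynPerc

theorem result :
    ∀ (d : ℕ), 1 ≤ d → ∀ P : Par, P.mu ^ 2 = P.p * (1 - P.p) →
      ∃ v : ℝ → ℝ,
        (∀ lam : ℝ, 0 < lam → ∀ᵐ ω ∂(law P (bias d lam)),
          Tendsto (fun t : ℝ => fun i => (walker ω t i : ℝ) / t) atTop
            (𝓝 (Pi.single 0 (v lam)))) ∧
        ∃ lam0 : ℝ, StrictMonoOn v (Set.Ici lam0) := by
  have hEnv := claimEnv (claimEdge claimMeas) claimMeas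
  have hStep := claimStep hEnv claimMeas claimInd
  have hRates := claimRates claimPhi claimContr
  have hVar := claimVar hRates hStep
  exact main (claimHolo claimPhi claimContr) claimReal claimRefl claimMeas hVar claimLLN
    claimClock (claimLeft claimMeas) (claimLat claimOne) claimSchw claimTaylor

end Pool.Agent.Results.MP_f058f1_pr.CriticalCurveMonotone
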